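import Pool.Agent.helper24.ISL.Spec

/-!
# Subgroups of `SL_n(ℚ)` meeting every conjugacy class: row NQ (MP_512a69)
-/

set_option autoImplicit false

namespace Pool.Agent.ISL

open Matrix Filter Topology

theorem NQ (h1 : KEY_stmt) (h2 : NG_stmt) (h3 : TRR_stmt) : NQ_stmt := by
  intro n hn H hH p q _ S hp hqp hpS hqS
  obtain ⟨K, hK, hKc, hKn⟩ := h2 n ℚ_[q] H S true
  obtain ⟨v, φ, hv, hφ, hφv, ρ, hρ, hz⟩ := h3 n hn H hH p q S hp hqp hpS hqS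
  have hq : (q : ℚ) ≠ 0 := by exact_mod_cast (Fact.out : q.Prime).ne_zero
  have hnorm : ‖((q : ℚ) : ℚ_[q])‖ < 1 := by
    rw [Rat.cast_natCast]
    exact Padic.norm_p_lt_one
  have hKt : K = ⊤ := h1 n ℚ_[q] H K hn hH hKc hKn ⟨(q : ℚ), hq, hnorm⟩ v φ hv hφ hφv
    ⟨ρ, hρ, fun z hzn => by
      obtain ⟨g, hg, hge⟩ := hz z hzn
      rw [← hK] at hg
      exact ⟨g, hg, hge⟩⟩
  rw [← hK, hKt]
  rfl

end Pool.Agent.ISL
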